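import Mathlib

namespace Pool.Agent.Results.MP_75d27e_nt.NotInjective

open Finset

/-- There is an `m`-product sequence with least member `n` and largest member `s`; it is given by
the numbers `c i` of occurrences of the integers `i`. -/
def IsProd (m n s : ℕ) : Prop :=
  ∃ c : ℕ → ℕ, (∀ i, c i ≤ m - 1) ∧ (∀ i, c i ≠ 0 → n ≤ i ∧ i ≤ s) ∧ c n ≠ 0 ∧ c s ≠ 0 ∧
    ∃ R : ℕ, ∏ i ∈ Icc n s, i ^ c i = R ^ m

/-- `g_m(n)`: the least `s` such that some `m`-product sequence has least member `n` and largest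
member `s`. -/
noncomputable def g (m n : ℕ) : ℕ := sInf {s | IsProd m n s}

/-- relation modulo `M` between the exponent vectors of `n, ..., N` with nonzero coefficient at
`n` -/
def Rel (M n N : ℕ) : Prop :=
  ∃ c : ℕ → ℕ, (∀ i, c i < M) ∧ (∀ i, c i ≠ 0 → n ≤ i ∧ i ≤ N) ∧ c n ≠ 0 ∧
    ∀ q, M ∣ ∑ i ∈ Icc n N, c i * i.factorization q

lemma pow_of_dvd {M x : ℕ} (hx : x ≠ 0) (h : ∀ q, M ∣ x.factorization q) :
    ∃ R, x = R ^ M := by
  refine ⟨x.factorization.prod fun q e => q ^ (e / M), ?_⟩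
  conv_lhs => rw [← Nat.prod_factorization_pow_eq_self hx]
  unfold Finsupp.prod
  rw [← Finset.prod_pow]
  refine Finset.prod_congr rfl fun q _ => ?_
  rw [← pow_mul, Nat.div_mul_cancel (h q)]

lemma fact_prod {n N : ℕ} (hn : 1 ≤ n) (c : ℕ → ℕ) (q : ℕ) :
    (∏ i ∈ Icc n N, i ^ c i).factorization q = ∑ i ∈ Icc n N, c i * i.factorization q := by
  rw [Nat.factorization_prod (fun i hi => pow_ne_zero _ (by
    have := (Finset.mem_Icc.1 hi).1
    omega))]
  rw [Finsupp.finsetSum_apply]
  refine Finset.sum_congr rfl fun i _ => ?_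
  rw [Nat.factorization_pow]
  rfl

lemma prod_ne {n N : ℕ} (hn : 1 ≤ n) (c : ℕ → ℕ) : ∏ i ∈ Icc n N, i ^ c i ≠ 0 :=
  Finset.prod_ne_zero_iff.2 fun i hi => pow_ne_zero _ (by
    have := (Finset.mem_Icc.1 hi).1
    omega)

lemma isProd_of_rel {M n N : ℕ} (hM : 2 ≤ M) (hn : 1 ≤ n) (h : Rel M n N) :
    ∃ s ≤ N, IsProd M n s := by
  classical
  obtain ⟨c, h1, h2, h3, h4⟩ := h
  have hnN : n ≤ N := (h2 n h3).2
  set A := (Icc n N).filter fun i => c i ≠ 0 with hA
  have hne : A.Nonempty := ⟨n, Finset.mem_filter.2 ⟨Finset.mem_Icc.2 ⟨le_rfl, hnN⟩, h3⟩⟩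
  set s := A.max' hne with hs
  have hsA : s ∈ A := A.max'_mem hne
  have hmax : ∀ i, c i ≠ 0 → i ≤ s := fun i hi =>
    A.le_max' i (Finset.mem_filter.2 ⟨Finset.mem_Icc.2 (h2 i hi), hi⟩)
  rw [hA, Finset.mem_filter, Finset.mem_Icc] at hsA
  refine ⟨s, hsA.1.2, c, fun i => by have := h1 i; omega,
    fun i hi => ⟨(h2 i hi).1, hmax i hi⟩, h3, hsA.2, ?_⟩
  have hprod : ∏ i ∈ Icc n s, i ^ c i = ∏ i ∈ Icc n N, i ^ c i := by
    refine Finset.prod_subset (Finset.Icc_subset_Icc_right hsA.1.2) fun i hi hi' => ?_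
    have : c i = 0 := by
      by_contra hc
      exact hi' (Finset.mem_Icc.2 ⟨(h2 i hc).1, hmax i hc⟩)
    rw [this, pow_zero]
  obtain ⟨R, hR⟩ := pow_of_dvd (M := M) (x := ∏ i ∈ Icc n N, i ^ c i) (prod_ne hn c)
    (fun q => by rw [fact_prod hn]; exact h4 q)
  exact ⟨R, by rw [hprod, hR]⟩

lemma g_le_of_rel {M n N : ℕ} (hM : 2 ≤ M) (hn : 1 ≤ n) (h : Rel M n N) : g M n ≤ N := by
  obtain ⟨s, hs, h'⟩ := isProd_of_rel hM hn h
  exact (Nat.sInf_le h').trans hs

lemma nonempty_isProd {M n : ℕ} (hM : 2 ≤ M) (hn : 1 ≤ n) : {s | IsProd M n s}.Nonempty := by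
  classical
  set t := n ^ (M - 1) * 2 ^ M with ht
  have h1 : n < t := by
    have h2 : n ≤ n ^ (M - 1) := Nat.le_self_pow (by omega) n
    have h3 : 2 ≤ 2 ^ M := Nat.le_self_pow (by omega) 2
    calc n < n * 2 := by omega
      _ ≤ t := Nat.mul_le_mul h2 h3
  refine ⟨t, fun i => if i = n ∨ i = t then 1 else 0, fun i => ?_, fun i hi => ?_, by simp,
    by simp, 2 * n, ?_⟩
  · simp only
    split_ifs <;> omega
  · have : i = n ∨ i = t := by
      by_contra h
      simp [h] at hi
    omega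
  · have hsub : ({n, t} : Finset ℕ) ⊆ Icc n t := by
      intro i hi
      rw [Finset.mem_insert, Finset.mem_singleton] at hi
      rw [Finset.mem_Icc]
      omega
    rw [← Finset.prod_subset hsub (by
      intro i _ hi
      rw [Finset.mem_insert, Finset.mem_singleton] at hi
      show i ^ (if i = n ∨ i = t then 1 else 0) = 1
      rw [if_neg hi, pow_zero]), Finset.prod_pair (by omega)]
    simp only [true_or, or_true, if_true, pow_one]
    rw [ht, mul_pow, ← mul_assoc, ← pow_succ', Nat.sub_add_cancel (by omega)]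
    ring

lemma isProd_g {M n : ℕ} (hM : 2 ≤ M) (hn : 1 ≤ n) : IsProd M n (g M n) :=
  Nat.sInf_mem (nonempty_isProd hM hn)

lemma g_zero {M : ℕ} (hM : 2 ≤ M) : g M 0 = 0 := by
  have : IsProd M 0 0 := by
    refine ⟨fun i => if i = 0 then 1 else 0, fun i => ?_, fun i hi => ?_, by simp, by simp, 0, ?_⟩
    · simp only
      split_ifs <;> omega
    · have : i = 0 := by
        by_contra h
        simp [h] at hi
      omega
    · rw [Finset.Icc_self, Finset.prod_singleton]
      show 0 ^ (if (0 : ℕ) = 0 then 1 else 0) = 0 ^ M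
      rw [if_pos rfl, pow_one, zero_pow (by omega)]
  exact Nat.le_zero.1 (Nat.sInf_le this)

lemma g_not_prime {M n : ℕ} (hM : 2 ≤ M) (hn : 1 ≤ n) : ¬ (g M n).Prime := by
  intro hq
  obtain ⟨c, h1, h2, h3, h4, R, hR⟩ := isProd_g hM hn
  set q := g M n with hqdef
  have h5 := fact_prod (N := q) hn c q
  rw [hR, Nat.factorization_pow] at h5
  have h6 : ∑ i ∈ Icc n q, c i * i.factorization q = c q := by
    rw [Finset.sum_eq_single q]
    · rw [hq.factorization_self, mul_one]
    · intro i hi hiq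
      rw [Finset.mem_Icc] at hi
      rw [Nat.factorization_eq_zero_of_not_dvd, mul_zero]
      intro hd
      have := Nat.le_of_dvd (by omega) hd
      omega
    · intro h
      exact absurd (Finset.mem_Icc.2 ⟨(h2 q h4).1, le_rfl⟩) h
  rw [h6] at h5
  have h7 : M ∣ c q := ⟨R.factorization q, by
    rw [← h5]
    rfl⟩
  have := Nat.le_of_dvd (Nat.pos_of_ne_zero h4) h7
  have := h1 q
  omega

/-! ### exponent vectors modulo `p` -/

/-- vectors indexed by the primes up to `N` -/
abbrev Vp (p N : ℕ) := (Nat.primesBelow (N + 1)) → ZMod p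

/-- exponent vector of `i` modulo `p` -/
def v (p N i : ℕ) : Vp p N := fun q => ((i.factorization q : ℕ) : ZMod p)

/-- the span of the exponent vectors of `n + 1, ..., N` -/
def W (p N n : ℕ) [Fact p.Prime] : Submodule (ZMod p) (Vp p N) :=
  Submodule.span (ZMod p) (v p N '' (Ioc n N : Finset ℕ))

variable {p : ℕ} [Fact p.Prime]

lemma mem_W {N n : ℕ} {x : Vp p N} :
    x ∈ W p N n ↔ ∃ a : ℕ → ZMod p, ∑ i ∈ Ioc n N, a i • v p N i = x := by
  unfold W
  rw [Submodule.mem_span_image_finset_iff_exists_fun]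
  constructor
  · rintro ⟨c, hc⟩
    refine ⟨fun i => if h : i ∈ Ioc n N then c ⟨i, h⟩ else 0, ?_⟩
    rw [← hc, ← Finset.sum_coe_sort]
    refine Finset.sum_congr rfl fun i _ => ?_
    show (if h : (i : ℕ) ∈ Ioc n N then c ⟨i, h⟩ else 0) • v p N i = _
    rw [dif_pos i.2]
  · rintro ⟨a, ha⟩
    exact ⟨fun i => a i, (Finset.sum_coe_sort (Ioc n N) (fun i => a i • v p N i)).trans ha⟩

lemma v_mem {N n i : ℕ} (h : n < i) (h' : i ≤ N) : v p N i ∈ W p N n :=
  Submodule.subset_span ⟨i, by simpa using ⟨h, h'⟩, rfl⟩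

lemma W_mono {N n n' : ℕ} (h : n ≤ n') : W p N n' ≤ W p N n := by
  unfold W
  refine Submodule.span_mono (Set.image_mono ?_)
  intro i hi
  simp only [Finset.coe_Ioc, Set.mem_Ioc] at hi ⊢
  omega

lemma chain (N j : ℕ) (hj : j ≤ N) : ∀ [DecidablePred fun k => v p N k ∉ W p N k],
    ((Ioc (N - j) N).filter fun k => v p N k ∉ W p N k).card ≤
      Module.finrank (ZMod p) (W p N (N - j)) := by
  intro _
  induction j with
  | zero => simp
  | succ j ih =>
    have ih' := ih (by omega)
    set k := N - j with hk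
    have h1 : N - (j + 1) = k - 1 := by omega
    have h2 : Ioc (k - 1) N = insert k (Ioc k N) := by
      ext i
      simp only [Finset.mem_Ioc, Finset.mem_insert]
      omega
    rw [h1, h2, Finset.filter_insert]
    split_ifs with h3
    · exact ih'.trans (Submodule.finrank_mono (W_mono (by omega)))
    · rw [Finset.card_insert_of_notMem (by simp)]
      have h4 : W p N k < W p N (k - 1) := by
        refine lt_of_le_of_ne (W_mono (by omega)) fun h => h3 ?_
        rw [h]
        exact v_mem (by omega) (by omega)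
      have := Submodule.finrank_lt_finrank_of_lt h4
      omega

lemma card_bad (N : ℕ) [DecidablePred fun k => v p N k ∉ W p N k] :
    ((Ioc 0 N).filter fun k => v p N k ∉ W p N k).card ≤ (Nat.primesBelow (N + 1)).card := by
  have h1 := chain (p := p) N N le_rfl
  rw [Nat.sub_self] at h1
  refine h1.trans ((Submodule.finrank_le _).trans (le_of_eq ?_))
  rw [Module.finrank_fintype_fun_eq_card, Fintype.card_coe]

lemma fact_zero {N i q : ℕ} (hi : 1 ≤ i) (hiN : i ≤ N) (hq : q ∉ Nat.primesBelow (N + 1)) :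
    i.factorization q = 0 := by
  rw [Nat.mem_primesBelow] at hq
  by_cases hp : q.Prime
  · refine Nat.factorization_eq_zero_of_not_dvd fun hd => hq ⟨?_, hp⟩
    have := Nat.le_of_dvd (by omega) hd
    omega
  · exact Nat.factorization_eq_zero_of_not_prime i hp

lemma dvd_of_sum {n N : ℕ} (d : ℕ → ℕ) (x : Vp p N)
    (h : ∑ i ∈ Icc n N, ((d i : ℕ) : ZMod p) • v p N i = x) (q : ℕ)
    (hq : q ∈ Nat.primesBelow (N + 1)) :
    ((∑ i ∈ Icc n N, d i * i.factorization q : ℕ) : ZMod p) = x ⟨q, hq⟩ := by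
  rw [← h]
  push_cast
  rw [Finset.sum_apply]
  rfl

lemma rel_of_mem {M n N : ℕ} (hM : 0 < M) (hpM : p ∣ M) (hn : 1 ≤ n) (hnN : n ≤ N)
    (h : v p N n ∈ W p N n) : Rel M n N := by
  obtain ⟨a, ha⟩ := mem_W.1 h
  have hp := (Fact.out : p.Prime).two_le
  obtain ⟨K, rfl⟩ := hpM
  have hK : 0 < K := Nat.pos_of_mul_pos_left hM
  set d : ℕ → ℕ := fun i => if i = n then p - 1 else if n < i ∧ i ≤ N then (a i).val else 0
    with hd
  have hdn : d n = p - 1 := by simp [hd]
  have hdi : ∀ i ∈ Ioc n N, d i = (a i).val := by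
    intro i hi
    rw [Finset.mem_Ioc] at hi
    simp only [hd]
    rw [if_neg (by omega), if_pos hi]
  have hlt : ∀ i, d i < p := by
    intro i
    simp only [hd]
    split_ifs
    · omega
    · exact ZMod.val_lt _
    · omega
  have hsum : ∑ i ∈ Icc n N, ((d i : ℕ) : ZMod p) • v p N i = 0 := by
    rw [← Finset.Ioc_insert_left hnN, Finset.sum_insert (by simp), hdn,
      Finset.sum_congr rfl fun i hi => by rw [hdi i hi, ZMod.natCast_zmod_val], ha,
      Nat.cast_sub (by omega)]
    simp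
  refine ⟨fun i => K * d i, fun i => ?_, fun i hi => ?_, ?_, fun q => ?_⟩
  · rw [mul_comm p K]
    exact Nat.mul_lt_mul_of_pos_left (hlt i) hK
  · have : d i ≠ 0 := fun h0 => hi (by simp [h0])
    simp only [hd] at this
    split_ifs at this <;> omega
  · simp only [hdn]
    exact Nat.mul_ne_zero (by omega) (by omega)
  · by_cases hq : q ∈ Nat.primesBelow (N + 1)
    · have h1 := dvd_of_sum d 0 hsum q hq
      have h2 : p ∣ ∑ i ∈ Icc n N, d i * i.factorization q :=
        (ZMod.natCast_eq_zero_iff _ _).1 (by rw [h1]; rfl)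
      have h3 : ∑ i ∈ Icc n N, K * d i * i.factorization q =
          K * ∑ i ∈ Icc n N, d i * i.factorization q := by
        rw [Finset.mul_sum]
        exact Finset.sum_congr rfl fun i _ => by ring
      rw [h3, mul_comm p K]
      exact Nat.mul_dvd_mul_left K h2
    · rw [Finset.sum_eq_zero fun i hi => by
        rw [Finset.mem_Icc] at hi
        rw [fact_zero (by omega) hi.2 hq, mul_zero]]
      exact dvd_zero _

lemma rel_top {K a0 : ℕ} (hK : 0 < K) (ha0 : 1 ≤ a0) (haN : a0 < 2 ^ p) (d : ℕ → ℕ)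
    (hlt : ∀ i, d i < p) (hd0 : d a0 ≠ 0)
    (h : ∑ i ∈ Icc a0 (2 ^ p), ((d i : ℕ) : ZMod p) • v p (2 ^ p) i = v p (2 ^ p) 2) :
    Rel (p ^ 2 * K) a0 (2 ^ p) := by
  have hpp := (Fact.out : p.Prime)
  have hp := hpp.two_le
  set N := 2 ^ p with hN
  have hN2 : 2 ≤ N := by
    rw [hN]
    exact Nat.le_self_pow (by omega) 2
  set c : ℕ → ℕ := fun i => if i = N then p ^ 2 * K - K else
    if a0 ≤ i ∧ i ≤ N then p * K * d i else 0 with hc
  have hcN : c N = p ^ 2 * K - K := by simp [hc]
  have hci : ∀ i ∈ Ico a0 N, c i = p * K * d i := by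
    intro i hi
    rw [Finset.mem_Ico] at hi
    simp only [hc]
    rw [if_neg (by omega), if_pos (by omega)]
  have hppos : 0 < p ^ 2 * K := by positivity
  have hbig : ∀ i, p * K * d i < p ^ 2 * K := by
    intro i
    have : p * K * d i < p * K * p := Nat.mul_lt_mul_of_pos_left (hlt i) (by positivity)
    calc p * K * d i < p * K * p := this
      _ = p ^ 2 * K := by ring
  refine ⟨c, fun i => ?_, fun i hi => ?_, ?_, fun q => ?_⟩
  · simp only [hc]
    split_ifs
    · omega
    · exact hbig i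
    · omega
  · simp only [hc] at hi
    split_ifs at hi <;> omega
  · rw [hci a0 (Finset.mem_Ico.2 ⟨le_rfl, haN⟩)]
    exact Nat.mul_ne_zero (by positivity) hd0
  · by_cases hq : q ∈ Nat.primesBelow (N + 1)
    · have h1 := dvd_of_sum d _ h q hq
      have hsplit : ∀ f : ℕ → ℕ, ∑ i ∈ Icc a0 N, f i = ∑ i ∈ Ico a0 N, f i + f N := by
        intro f
        rw [← Finset.Ico_insert_right haN.le, Finset.sum_insert (by simp), add_comm]
      rw [hsplit] at h1 ⊢
      rw [hcN, Finset.sum_congr rfl fun i hi => by rw [hci i hi]]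
      have hfN : N.factorization q = p * (2 : ℕ).factorization q := by
        rw [hN, Nat.factorization_pow]
        rfl
      have h3 : ∑ i ∈ Ico a0 N, p * K * d i * i.factorization q =
          p * K * ∑ i ∈ Ico a0 N, d i * i.factorization q := by
        rw [Finset.mul_sum]
        exact Finset.sum_congr rfl fun i _ => by ring
      rw [h3, hfN]
      rw [hfN] at h1
      set S := ∑ i ∈ Ico a0 N, d i * i.factorization q with hS
      set t := (2 : ℕ).factorization q with ht
      have h4 : (S : ZMod p) = (t : ZMod p) := by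
        have h5 : ((S + d N * (p * t) : ℕ) : ZMod p) = (S : ZMod p) := by
          push_cast
          rw [ZMod.natCast_self]
          ring
        rw [← h5, h1]
        rfl
      have h6 : p ∣ S + (p ^ 2 - 1) * t := by
        rw [← ZMod.natCast_eq_zero_iff]
        push_cast [Nat.cast_sub (show 1 ≤ p ^ 2 from Nat.one_le_pow _ _ (by omega))]
        rw [h4, ZMod.natCast_self]
        ring
      have h7 : p * K * S + (p ^ 2 * K - K) * (p * t) = p * K * (S + (p ^ 2 - 1) * t) := by
        have h8 : p ^ 2 * K - K = (p ^ 2 - 1) * K := by rw [Nat.sub_mul, one_mul]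
        rw [h8]
        ring
      rw [h7, show p ^ 2 * K = p * K * p by ring]
      exact Nat.mul_dvd_mul_left _ h6
    · rw [Finset.sum_eq_zero fun i hi => by
        rw [Finset.mem_Icc] at hi
        rw [fact_zero (by omega) hi.2 hq, mul_zero]]
      exact dvd_zero _

lemma v_top (N : ℕ) (hN : N = 2 ^ p) : v p N N = 0 := by
  have h : ∀ q : ℕ, N.factorization q = p * (2 : ℕ).factorization q := by
    intro q
    rw [hN, Nat.factorization_pow]
    rfl
  funext q
  show ((N.factorization (q : ℕ) : ℕ) : ZMod p) = 0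
  rw [h q]
  push_cast
  rw [ZMod.natCast_self]
  simp

lemma v_two_ne (N : ℕ) (hN : 2 ≤ N) : v p N 2 ≠ 0 := by
  intro h
  have h1 := congrFun h ⟨2, Nat.mem_primesBelow.2 ⟨by omega, Nat.prime_two⟩⟩
  unfold v at h1
  simp only [Nat.prime_two.factorization_self, Nat.cast_one, Pi.zero_apply] at h1
  exact one_ne_zero h1

lemma exists_a0 {K : ℕ} (hK : 0 < K) : ∃ a0, 1 ≤ a0 ∧ a0 < 2 ^ p ∧
    v p (2 ^ p) a0 ∉ W p (2 ^ p) a0 ∧ Rel (p ^ 2 * K) a0 (2 ^ p) := by
  classical
  have hp := (Fact.out : p.Prime).two_le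
  set N := 2 ^ p with hN
  have hN2 : 2 ≤ N := by
    rw [hN]
    exact Nat.le_self_pow (by omega) 2
  have hex : ∃ n, v p N 2 ∉ W p N n := by
    refine ⟨N, fun h => v_two_ne (p := p) N hN2 ?_⟩
    obtain ⟨a, ha⟩ := mem_W.1 h
    rw [← ha]
    simp
  set a0 := Nat.find hex with ha0
  have h1 : v p N 2 ∉ W p N a0 := Nat.find_spec hex
  have h0 : 1 ≤ a0 := by
    by_contra h
    have : a0 = 0 := by omega
    rw [this] at h1
    exact h1 (v_mem (by omega) hN2)
  have h2 : v p N 2 ∈ W p N (a0 - 1) := by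
    by_contra h
    have := Nat.find_min' hex h
    omega
  have haN : a0 ≤ N := Nat.find_min' hex (fun h => v_two_ne (p := p) N hN2 (by
    obtain ⟨a, ha⟩ := mem_W.1 h
    rw [← ha]
    simp))
  obtain ⟨a, ha⟩ := mem_W.1 h2
  have hI : Ioc (a0 - 1) N = insert a0 (Ioc a0 N) := by
    ext i
    simp only [Finset.mem_Ioc, Finset.mem_insert]
    omega
  rw [hI, Finset.sum_insert (by simp)] at ha
  have hrest : ∑ i ∈ Ioc a0 N, a i • v p N i ∈ W p N a0 := mem_W.2 ⟨a, rfl⟩
  have hlt : a0 < N := by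
    refine lt_of_le_of_ne haN fun h => ?_
    rw [h, v_top N hN] at ha
    simp only [smul_zero, zero_add, Finset.Ioc_self, Finset.sum_empty] at ha
    exact v_two_ne (p := p) N hN2 ha.symm
  have hnot : v p N a0 ∉ W p N a0 := fun h => h1 (by
    rw [← ha]
    exact Submodule.add_mem _ (Submodule.smul_mem _ _ h) hrest)
  have hne : a a0 ≠ 0 := fun h => h1 (by
    rw [← ha, h, zero_smul, zero_add]
    exact hrest)
  refine ⟨a0, h0, hlt, hnot, rel_top hK h0 hlt (fun i => (a i).val) (fun i => ZMod.val_lt _)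
    (fun h => hne ((ZMod.val_eq_zero _).1 h)) ?_⟩
  rw [← Finset.Ioc_insert_left haN, Finset.sum_insert (by simp)]
  simp only [ZMod.natCast_zmod_val]
  exact ha

/-- If `m` is divisible by the square of a prime, then `g_m` is not injective. -/
theorem result (m p : ℕ) (hp : p.Prime) (hm : 0 < m) (hpm : p ^ 2 ∣ m) :
    ¬ Function.Injective (g m) := by
  classical
  have : Fact p.Prime := ⟨hp⟩
  intro hinj
  have hp2 := hp.two_le
  have hm2 : 2 ≤ m := by
    have := Nat.le_of_dvd hm hpm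
    nlinarith
  obtain ⟨K, rfl⟩ := hpm
  have hK : 0 < K := Nat.pos_of_mul_pos_left hm
  obtain ⟨a0, h1, h2, h3, h4⟩ := exists_a0 (p := p) hK
  set N := 2 ^ p with hN
  set B := (Ioc 0 N).filter fun k => v p N k ∉ W p N k with hB
  have hBc : B.card ≤ (Nat.primesBelow (N + 1)).card := card_bad N
  set G := insert 0 (insert a0 (Ioc 0 N \ B)) with hG
  have hBsub : B ⊆ Ioc 0 N := Finset.filter_subset _ _
  have ha0B : a0 ∈ B := Finset.mem_filter.2 ⟨Finset.mem_Ioc.2 ⟨by omega, h2.le⟩, h3⟩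
  have hGc : G.card = N - B.card + 2 := by
    rw [hG, Finset.card_insert_of_notMem, Finset.card_insert_of_notMem,
      Finset.card_sdiff_of_subset hBsub, Nat.card_Ioc]
    · omega
    · intro h
      exact (Finset.mem_sdiff.1 h).2 ha0B
    · intro h
      rcases Finset.mem_insert.1 h with h | h
      · omega
      · have := (Finset.mem_Ioc.1 (Finset.mem_sdiff.1 h).1).1
        omega
  have hmaps : G.image (g (p ^ 2 * K)) ⊆ Finset.range (N + 1) \ Nat.primesBelow (N + 1) := by
    intro y hy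
    obtain ⟨n, hn, rfl⟩ := Finset.mem_image.1 hy
    rw [Finset.mem_sdiff, Finset.mem_range, Nat.mem_primesBelow]
    rcases Nat.eq_zero_or_pos n with rfl | hn0
    · rw [g_zero hm2]
      exact ⟨by omega, fun h => Nat.not_prime_zero h.2⟩
    · have hrel : Rel (p ^ 2 * K) n N := by
        rw [hG, Finset.mem_insert, Finset.mem_insert, Finset.mem_sdiff] at hn
        rcases hn with hn | rfl | ⟨hn, hnB⟩
        · omega
        · exact h4
        · have hnI := Finset.mem_Ioc.1 hn
          refine rel_of_mem hm (Dvd.dvd.mul_right (dvd_pow_self p (by norm_num)) K) hn0 hnI.2 ?_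
          by_contra hcon
          exact hnB (Finset.mem_filter.2 ⟨hn, hcon⟩)
      have := g_le_of_rel hm2 hn0 hrel
      exact ⟨by omega, fun h => g_not_prime hm2 hn0 h.2⟩
  have hc := Finset.card_le_card hmaps
  rw [Finset.card_image_of_injective _ hinj, hGc, Finset.card_sdiff_of_subset (fun q hq => by
    rw [Nat.mem_primesBelow] at hq
    exact Finset.mem_range.2 hq.1), Finset.card_range] at hc
  have hBN : B.card ≤ N := by
    have := Finset.card_le_card hBsub
    rwa [Nat.card_Ioc, Nat.sub_zero] at this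
  omega

end Pool.Agent.Results.MP_75d27e_nt.NotInjective
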